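import Pool.Agent.W749.JI.Stm

/-!
# Project JI, part BTOG: from the functional equation of the ideal to `g = ∑ y_i f_i`
-/

set_option autoImplicit false

namespace Pool.Agent.W670.JIBtoG

open MvPolynomial
open Pool.Agent.W749.NM Pool.Agent.W749.JI
open Pool.Agent.H628R4.TP (weylS)

section Weyl

variable {σ : Type}

lemma X_mem (i : σ) : LinearMap.mulLeft ℂ (X i : MvPolynomial σ ℂ) ∈ weylS σ :=
  Algebra.subset_adjoin (Or.inl ⟨i, rfl⟩)

lemma pderiv_mem (i : σ) : ((pderiv i : Derivation ℂ (MvPolynomial σ ℂ) (MvPolynomial σ ℂ)) :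
    MvPolynomial σ ℂ →ₗ[ℂ] MvPolynomial σ ℂ) ∈ weylS σ :=
  Algebra.subset_adjoin (Or.inr ⟨i, rfl⟩)

lemma mulLeft_mem (p : MvPolynomial σ ℂ) : LinearMap.mulLeft ℂ p ∈ weylS σ := by
  induction p using MvPolynomial.induction_on with
  | C a =>
    have : LinearMap.mulLeft ℂ (C a : MvPolynomial σ ℂ) =
        algebraMap ℂ (Module.End ℂ (MvPolynomial σ ℂ)) a := by
      refine LinearMap.ext fun x => ?_
      simp [Module.algebraMap_end_apply, MvPolynomial.smul_eq_C_mul]
    rw [this]
    exact (weylS σ).algebraMap_mem a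
  | add p q hp hq =>
    have : LinearMap.mulLeft ℂ (p + q) = LinearMap.mulLeft ℂ p + LinearMap.mulLeft ℂ q := by
      refine LinearMap.ext fun x => ?_
      simp [add_mul]
    rw [this]
    exact (weylS σ).add_mem hp hq
  | mul_X p i hp =>
    have : LinearMap.mulLeft ℂ (p * X i) =
        (LinearMap.mulLeft ℂ p : Module.End ℂ (MvPolynomial σ ℂ)) *
          LinearMap.mulLeft ℂ (X i : MvPolynomial σ ℂ) := by
      refine LinearMap.ext fun x => ?_
      simp [Module.End.mul_apply]
    rw [this]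
    exact (weylS σ).mul_mem hp (X_mem i)

end Weyl

section Ops

variable {n r : ℕ}

/-- the monomial `y ^ s` -/
noncomputable def Y (n : ℕ) {r : ℕ} (s : Fin r → ℕ) : MvPolynomial (Fin (n + r)) ℂ :=
  ∏ i, X (Fin.natAdd n i) ^ s i

/-- polynomials in `x` -/
noncomputable def E (r : ℕ) {n : ℕ} (h : MvPolynomial (Fin n) ℂ) :
    MvPolynomial (Fin (n + r)) ℂ :=
  rename (Fin.castAdd r) h

lemma E_mul (h k : MvPolynomial (Fin n) ℂ) : E r (h * k) = E r h * E r k := by
  simp [E]

lemma E_add (h k : MvPolynomial (Fin n) ℂ) : E r (h + k) = E r h + E r k := by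
  simp [E]

lemma ne_cast_nat (i : Fin n) (j : Fin r) : Fin.castAdd r i ≠ Fin.natAdd n j := by
  intro h
  have := congrArg Fin.val h
  simp at this
  omega

lemma pderiv_prod_zero {τ ι : Type} (k : τ) (S : Finset ι) (g : ι → MvPolynomial τ ℂ)
    (h : ∀ i ∈ S, pderiv k (g i) = 0) : pderiv k (∏ i ∈ S, g i) = 0 := by
  classical
  induction S using Finset.induction_on with
  | empty => simp
  | insert a S ha ih =>
    rw [Finset.prod_insert ha, Derivation.leibniz, h a (Finset.mem_insert_self a S),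
      ih fun i hi => h i (Finset.mem_insert_of_mem hi)]
    simp

lemma pderiv_Y_cast (i : Fin n) (s : Fin r → ℕ) :
    pderiv (Fin.castAdd r i) (Y n s) = 0 := by
  unfold Y
  refine pderiv_prod_zero _ _ _ fun j _ => ?_
  rw [Derivation.leibniz_pow, pderiv_X_of_ne (ne_cast_nat i j).symm]
  simp

lemma pderiv_E_nat (i : Fin r) (h : MvPolynomial (Fin n) ℂ) :
    pderiv (Fin.natAdd n i) (E r h) = 0 := by
  unfold E
  apply pderiv_eq_zero_of_notMem_vars
  intro hm
  have := vars_rename (Fin.castAdd r) h hm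
  rw [Finset.mem_image] at this
  obtain ⟨j, _, hj⟩ := this
  exact ne_cast_nat j i hj

lemma pderiv_E_cast (i : Fin n) (h : MvPolynomial (Fin n) ℂ) :
    pderiv (Fin.castAdd r i) (E r h) = E r (pderiv i h) := by
  unfold E
  exact pderiv_rename (Fin.castAdd_injective n r) i h

/-- (1) operators in `x`. -/
lemma lift (Q : Module.End ℂ (MvPolynomial (Fin n) ℂ)) (hQ : Q ∈ weylS (Fin n)) (r : ℕ) :
    ∃ T ∈ weylS (Fin (n + r)), ∀ (s : Fin r → ℕ) (h : MvPolynomial (Fin n) ℂ),
      T (Y n s * E r h) = Y n s * E r (Q h) := by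
  unfold weylS at hQ
  induction hQ using Algebra.adjoin_induction with
  | mem x hx =>
    rcases hx with ⟨i, rfl⟩ | ⟨i, rfl⟩
    · refine ⟨_, X_mem (Fin.castAdd r i), fun s h => ?_⟩
      simp only [LinearMap.mulLeft_apply]
      rw [E_mul]
      simp only [E, rename_X]
      ring
    · refine ⟨_, pderiv_mem (Fin.castAdd r i), fun s h => ?_⟩
      show pderiv (Fin.castAdd r i) (Y n s * E r h) = Y n s * E r (pderiv i h)
      rw [Derivation.leibniz, pderiv_Y_cast, pderiv_E_cast]
      simp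
  | algebraMap a =>
    refine ⟨algebraMap ℂ _ a, Subalgebra.algebraMap_mem _ a, fun s h => ?_⟩
    simp only [Module.algebraMap_end_apply]
    simp [E]
  | add x y _ _ hx hy =>
    obtain ⟨T, hT, h1⟩ := hx
    obtain ⟨U, hU, h2⟩ := hy
    refine ⟨T + U, Subalgebra.add_mem _ hT hU, fun s h => ?_⟩
    rw [LinearMap.add_apply, h1, h2, LinearMap.add_apply, E_add]
    ring
  | mul x y _ _ hx hy =>
    obtain ⟨T, hT, h1⟩ := hx
    obtain ⟨U, hU, h2⟩ := hy
    refine ⟨T * U, Subalgebra.mul_mem _ hT hU, fun s h => ?_⟩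
    rw [Module.End.mul_apply, h2, h1, Module.End.mul_apply]

lemma Y_mul_X (s : Fin r → ℕ) (i : Fin r) (k : ℕ) :
    X (Fin.natAdd n i) ^ k * Y n s = Y n (Function.update s i (s i + k)) := by
  unfold Y
  rw [← Finset.mul_prod_erase Finset.univ _ (Finset.mem_univ i),
    ← Finset.mul_prod_erase Finset.univ (fun j => X (Fin.natAdd n j) ^
      (Function.update s i (s i + k) j)) (Finset.mem_univ i)]
  rw [Function.update_self]
  rw [← mul_assoc, ← pow_add, Nat.add_comm k]
  congr 1
  refine Finset.prod_congr rfl fun j hj => ?_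
  rw [Function.update_of_ne (Finset.ne_of_mem_erase hj)]

lemma pderiv_Y (s : Fin r → ℕ) (i : Fin r) :
    pderiv (Fin.natAdd n i) (Y n s) = (s i : ℂ) • Y n (Function.update s i (s i - 1)) := by
  unfold Y
  rw [← Finset.mul_prod_erase Finset.univ _ (Finset.mem_univ i),
    ← Finset.mul_prod_erase Finset.univ (fun j => X (Fin.natAdd n j) ^
      (Function.update s i (s i - 1) j)) (Finset.mem_univ i)]
  rw [Function.update_self, Derivation.leibniz, Derivation.leibniz_pow, pderiv_X_self]
  have h0 : pderiv (Fin.natAdd n i)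
      (∏ x ∈ Finset.univ.erase i, (X (Fin.natAdd n x) : MvPolynomial (Fin (n + r)) ℂ) ^ s x)
        = 0 := by
    refine pderiv_prod_zero _ _ _ fun j hj => ?_
    rw [Derivation.leibniz_pow, pderiv_X_of_ne]
    · simp
    · intro h
      exact Finset.ne_of_mem_erase hj ((Fin.natAdd_injective r n) h)
  rw [h0]
  have h1 : ∏ x ∈ Finset.univ.erase i, (X (Fin.natAdd n x) : MvPolynomial (Fin (n + r)) ℂ) ^ s x
      = ∏ x ∈ Finset.univ.erase i, (X (Fin.natAdd n x) : MvPolynomial (Fin (n + r)) ℂ) ^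
        (Function.update s i (s i - 1) x) := by
    refine Finset.prod_congr rfl fun j hj => ?_
    rw [Function.update_of_ne (Finset.ne_of_mem_erase hj)]
  rw [h1]
  simp only [smul_eq_mul, mul_zero, zero_add, mul_one, nsmul_eq_mul, MvPolynomial.smul_eq_C_mul,
    map_natCast]
  ring

/-- the factor of the operator of exponent `d` -/
noncomputable def kap (d : ℤ) (m : ℕ) : ℂ :=
  if 0 ≤ d then (m.descFactorial d.toNat : ℂ) else 1 / ((-d).toNat.factorial : ℂ)

lemma one_step_pos (i : Fin r) (k : ℕ) :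
    ∃ T ∈ weylS (Fin (n + r)), ∀ (s : Fin r → ℕ) (h : MvPolynomial (Fin n) ℂ),
      T (Y n s * E r h) =
        ((s i).descFactorial k : ℂ) • (Y n (Function.update s i (s i - k)) * E r h) := by
  induction k with
  | zero =>
    refine ⟨1, Subalgebra.one_mem _, fun s h => ?_⟩
    simp
  | succ k ih =>
    obtain ⟨T, hT, h1⟩ := ih
    refine ⟨_, Subalgebra.mul_mem _ (pderiv_mem (Fin.natAdd n i)) hT, fun s h => ?_⟩
    rw [Module.End.mul_apply, h1, map_smul]
    show ((s i).descFactorial k : ℂ) • pderiv (Fin.natAdd n i)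
      (Y n (Function.update s i (s i - k)) * E r h) = _
    rw [Derivation.leibniz, pderiv_E_nat, pderiv_Y]
    simp only [smul_eq_mul, mul_zero, zero_add, Function.update_self, Function.update_idem]
    rw [Nat.descFactorial_succ, Nat.sub_sub]
    push_cast
    rw [mul_comm (E r h), smul_mul_assoc, smul_smul]
    congr 1
    ring

lemma one_step (i : Fin r) (d : ℤ) :
    ∃ T ∈ weylS (Fin (n + r)), ∀ (s : Fin r → ℕ) (h : MvPolynomial (Fin n) ℂ),
      T (Y n s * E r h) =
        kap d (s i) • (Y n (Function.update s i ((s i : ℤ) - d).toNat) * E r h) := by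
  by_cases hd : 0 ≤ d
  · obtain ⟨T, hT, h1⟩ := one_step_pos (n := n) i d.toNat
    refine ⟨T, hT, fun s h => ?_⟩
    rw [h1, kap, if_pos hd]
    congr 4
    omega
  · refine ⟨(1 / ((-d).toNat.factorial : ℂ)) • LinearMap.mulLeft ℂ (X (Fin.natAdd n i) ^ (-d).toNat),
      Subalgebra.smul_mem _ (mulLeft_mem _) _, fun s h => ?_⟩
    rw [LinearMap.smul_apply, LinearMap.mulLeft_apply, ← mul_assoc, Y_mul_X, kap, if_neg hd]
    congr 4
    omega

/-- (2) the operator which maps `y ^ s` to a multiple of `y ^ (s - c)`. -/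
lemma shift (c : Fin r → ℤ) (S : Finset (Fin r)) :
    ∃ T ∈ weylS (Fin (n + r)), ∀ (s : Fin r → ℕ) (h : MvPolynomial (Fin n) ℂ),
      T (Y n s * E r h) = (∏ i ∈ S, kap (c i) (s i)) •
        (Y n (fun i => if i ∈ S then ((s i : ℤ) - c i).toNat else s i) * E r h) := by
  induction S using Finset.induction_on with
  | empty =>
    refine ⟨1, Subalgebra.one_mem _, fun s h => ?_⟩
    simp
  | insert a S ha ih =>
    obtain ⟨T, hT, h1⟩ := ih
    obtain ⟨U, hU, h2⟩ := one_step (n := n) a (c a)
    refine ⟨U * T, Subalgebra.mul_mem _ hU hT, fun s h => ?_⟩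
    rw [Module.End.mul_apply, h1, map_smul, h2, Finset.prod_insert ha, smul_smul, if_neg ha,
      mul_comm]
    congr 3
    funext i
    by_cases hi : i = a
    · subst hi
      simp
    · rw [Function.update_of_ne hi]
      simp [hi]

/-- (3) polynomials in the `y_i d/dy_i`. -/
lemma euler (q : MvPolynomial (Fin r) ℂ) :
    ∃ T ∈ weylS (Fin (n + r)), ∀ (s : Fin r → ℕ) (h : MvPolynomial (Fin n) ℂ),
      T (Y n s * E r h) = (eval (fun i => (s i : ℂ)) q) • (Y n s * E r h) := by
  induction q using MvPolynomial.induction_on with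
  | C a =>
    refine ⟨algebraMap ℂ _ a, Subalgebra.algebraMap_mem _ a, fun s h => ?_⟩
    simp [Module.algebraMap_end_apply]
  | add p q hp hq =>
    obtain ⟨T, hT, h1⟩ := hp
    obtain ⟨U, hU, h2⟩ := hq
    refine ⟨T + U, Subalgebra.add_mem _ hT hU, fun s h => ?_⟩
    rw [LinearMap.add_apply, h1, h2, map_add, add_smul]
  | mul_X p i hp =>
    obtain ⟨T, hT, h1⟩ := hp
    refine ⟨T * ((LinearMap.mulLeft ℂ (X (Fin.natAdd n i) : MvPolynomial (Fin (n + r)) ℂ) :
      Module.End ℂ _) * ((pderiv (Fin.natAdd n i) : Derivation ℂ (MvPolynomial (Fin (n + r)) ℂ)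
        (MvPolynomial (Fin (n + r)) ℂ)) :
          MvPolynomial (Fin (n + r)) ℂ →ₗ[ℂ] MvPolynomial (Fin (n + r)) ℂ)),
      Subalgebra.mul_mem _ hT (Subalgebra.mul_mem _ (X_mem _) (pderiv_mem _)), fun s h => ?_⟩
    rw [Module.End.mul_apply, Module.End.mul_apply]
    have h3 : LinearMap.mulLeft ℂ (X (Fin.natAdd n i) : MvPolynomial (Fin (n + r)) ℂ)
        (((pderiv (Fin.natAdd n i) : Derivation ℂ (MvPolynomial (Fin (n + r)) ℂ)
        (MvPolynomial (Fin (n + r)) ℂ)) :
          MvPolynomial (Fin (n + r)) ℂ →ₗ[ℂ] MvPolynomial (Fin (n + r)) ℂ) (Y n s * E r h)) =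
        (s i : ℂ) • (Y n s * E r h) := by
      show X (Fin.natAdd n i) * pderiv (Fin.natAdd n i) (Y n s * E r h) = _
      rw [Derivation.leibniz, pderiv_E_nat, pderiv_Y]
      simp only [smul_eq_mul, mul_zero, zero_add]
      rw [mul_comm (E r h), smul_mul_assoc, mul_smul_comm, ← mul_assoc]
      by_cases hs : s i = 0
      · simp [hs]
      · have := Y_mul_X (n := n) (Function.update s i (s i - 1)) i 1
        rw [pow_one, Function.update_self, Function.update_idem,
          Nat.sub_add_cancel (Nat.one_le_iff_ne_zero.mpr hs), Function.update_eq_self] at this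
        rw [this]
    rw [h3, map_smul, h1, smul_smul, map_mul, eval_X, mul_comm]

/-! ### The numbers -/

lemma kap_fact (d : ℤ) (a b : ℕ) (h : (a : ℤ) = b + d) :
    kap d a * (b.factorial : ℂ) = (b.choose (-d).toNat : ℂ) * (a.factorial : ℂ) := by
  unfold kap
  by_cases hd : 0 ≤ d
  · rw [if_pos hd]
    have h1 : (-d).toNat = 0 := by omega
    rw [h1, Nat.choose_zero_right, Nat.cast_one, one_mul]
    have h2 : d.toNat ≤ a := by omega
    have h3 : b = a - d.toNat := by omega
    rw [h3]
    have := Nat.factorial_mul_descFactorial h2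
    rw [← this]
    push_cast
    ring
  · rw [if_neg hd]
    obtain ⟨e, he⟩ : ∃ e : ℕ, (e : ℤ) = -d := ⟨(-d).toNat, by omega⟩
    have h1 : (-d).toNat = e := by omega
    rw [h1]
    have h3 : b = a + e := by omega
    rw [h3]
    have h4 := Nat.add_choose_mul_factorial_mul_factorial a e
    have h5 : (((a + e).choose e : ℕ) : ℂ) * (a.factorial : ℂ) * (e.factorial : ℂ) =
        ((a + e).factorial : ℂ) := by
      rw [← h4, ← Nat.choose_symm_add]
      push_cast
      ring
    rw [← h5]
    have : (e.factorial : ℂ) ≠ 0 := by exact_mod_cast Nat.factorial_ne_zero e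
    field_simp

lemma kap_zero (d : ℤ) (a : ℕ) (h : (a : ℤ) < d) : kap d a = 0 := by
  unfold kap
  rw [if_pos (by omega), Nat.descFactorial_of_lt (by omega), Nat.cast_zero]

lemma multi (s : Fin r → ℕ) (N : ℕ) (hs : ∑ i, s i = N) :
    (∏ i, ((s i).factorial : ℂ)) * (Nat.multinomial Finset.univ s : ℂ) = (N.factorial : ℂ) := by
  rw [← hs]
  have := Nat.multinomial_spec (Finset.univ : Finset (Fin r)) s
  exact_mod_cast this

lemma coef (c : Fin r → ℤ) (hc : ∑ i, c i = 1) (s t : Fin r → ℕ) (N : ℕ)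
    (hs : ∑ i, s i = N) (hst : ∀ i, (t i : ℤ) = s i + c i) :
    (Nat.multinomial Finset.univ t : ℂ) * ∏ i, kap (c i) (t i) =
      ((N : ℂ) + 1) * ((Nat.multinomial Finset.univ s : ℂ) *
        ∏ i, ((s i).choose (-(c i)).toNat : ℂ)) := by
  have ht : ∑ i, t i = N + 1 := by
    have : ((∑ i, t i : ℕ) : ℤ) = ((N + 1 : ℕ) : ℤ) := by
      push_cast
      rw [Finset.sum_congr rfl fun i _ => hst i, Finset.sum_add_distrib, hc, ← hs]
      push_cast
      rfl
    exact_mod_cast this
  have h1 := multi s N hs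
  have h2 := multi t (N + 1) ht
  have h3 : (∏ i, kap (c i) (t i)) * ∏ i, ((s i).factorial : ℂ) =
      (∏ i, ((s i).choose (-(c i)).toNat : ℂ)) * ∏ i, ((t i).factorial : ℂ) := by
    rw [← Finset.prod_mul_distrib, ← Finset.prod_mul_distrib]
    exact Finset.prod_congr rfl fun i _ => kap_fact (c i) (t i) (s i) (hst i)
  have h4 : (∏ i, ((s i).factorial : ℂ)) ≠ 0 :=
    Finset.prod_ne_zero_iff.mpr fun i _ => by exact_mod_cast Nat.factorial_ne_zero _
  apply mul_right_cancel₀ h4
  rw [mul_assoc, h3]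
  have h5 : (((N + 1).factorial : ℕ) : ℂ) = ((N : ℂ) + 1) * (N.factorial : ℂ) := by
    rw [Nat.factorial_succ]
    push_cast
    ring
  calc (Nat.multinomial Finset.univ t : ℂ) * ((∏ i, ((s i).choose (-(c i)).toNat : ℂ)) *
        ∏ i, ((t i).factorial : ℂ))
      = (∏ i, ((s i).choose (-(c i)).toNat : ℂ)) *
        ((∏ i, ((t i).factorial : ℂ)) * (Nat.multinomial Finset.univ t : ℂ)) := by ring
    _ = (∏ i, ((s i).choose (-(c i)).toNat : ℂ)) * (((N : ℂ) + 1) *
        ((∏ i, ((s i).factorial : ℂ)) * (Nat.multinomial Finset.univ s : ℂ))) := by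
      rw [h2, h1, h5]
    _ = _ := by ring

/-- The expansion of `g ^ N`. -/
lemma gpow (f : Fin r → MvPolynomial (Fin n) ℂ) (N : ℕ) :
    gpol f ^ N = ∑ s ∈ Finset.piAntidiag Finset.univ N,
      (Nat.multinomial Finset.univ s : ℂ) • (Y n s * E r (∏ i, f i ^ s i)) := by
  unfold gpol
  rw [Finset.sum_pow_eq_sum_piAntidiag]
  refine Finset.sum_congr rfl fun s _ => ?_
  have : ∏ i, (X (Fin.natAdd n i) * rename (Fin.castAdd r) (f i) :
      MvPolynomial (Fin (n + r)) ℂ) ^ s i = Y n s * E r (∏ i, f i ^ s i) := by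
    unfold Y E
    rw [map_prod, ← Finset.prod_mul_distrib]
    refine Finset.prod_congr rfl fun i _ => ?_
    rw [mul_pow, map_pow]
  rw [this, MvPolynomial.smul_eq_C_mul]
  simp

/-- reindexing -/
lemma reindex {M : Type} [AddCommMonoid M] (c : Fin r → ℤ) (hc : ∑ i, c i = 1) (N : ℕ)
    (F G : (Fin r → ℕ) → M)
    (hF : ∀ t, (∃ i, (t i : ℤ) < c i) → F t = 0)
    (hG : ∀ s, (∃ i, (s i : ℤ) < - c i) → G s = 0)
    (hFG : ∀ s t : Fin r → ℕ, (∑ i, s i = N) → (∀ i, (t i : ℤ) = s i + c i) → F t = G s) :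
    ∑ t ∈ Finset.piAntidiag Finset.univ (N + 1), F t =
      ∑ s ∈ Finset.piAntidiag Finset.univ N, G s := by
  classical
  rw [← Finset.sum_filter_of_ne (p := fun t : Fin r → ℕ => ∀ i, c i ≤ (t i : ℤ)),
    ← Finset.sum_filter_of_ne (s := Finset.piAntidiag Finset.univ N)
      (p := fun s : Fin r → ℕ => ∀ i, - c i ≤ (s i : ℤ))]
  · refine Finset.sum_nbij' (fun t i => ((t i : ℤ) - c i).toNat)
      (fun s i => ((s i : ℤ) + c i).toNat) ?_ ?_ ?_ ?_ ?_
    · intro t ht
      rw [Finset.mem_filter, Finset.mem_piAntidiag] at ht ⊢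
      obtain ⟨⟨h1, -⟩, h2⟩ := ht
      have h3 : ∀ i, ((((t i : ℤ) - c i).toNat : ℕ) : ℤ) = t i - c i := fun i => by
        have := h2 i
        omega
      refine ⟨⟨?_, fun i _ => Finset.mem_univ i⟩, fun i => ?_⟩
      · have : (((∑ i, ((t i : ℤ) - c i).toNat : ℕ)) : ℤ) = ((N : ℕ) : ℤ) := by
          push_cast
          rw [Finset.sum_congr rfl fun i _ => h3 i, Finset.sum_sub_distrib, hc]
          have : ((∑ i, t i : ℕ) : ℤ) = ((N + 1 : ℕ) : ℤ) := by rw [h1]
          push_cast at this
          rw [this]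
          ring
        exact_mod_cast this
      · have := h3 i
        show - c i ≤ ((((t i : ℤ) - c i).toNat : ℕ) : ℤ)
        rw [this]
        omega
    · intro s hs
      rw [Finset.mem_filter, Finset.mem_piAntidiag] at hs ⊢
      obtain ⟨⟨h1, -⟩, h2⟩ := hs
      have h3 : ∀ i, ((((s i : ℤ) + c i).toNat : ℕ) : ℤ) = s i + c i := fun i => by
        have := h2 i
        omega
      refine ⟨⟨?_, fun i _ => Finset.mem_univ i⟩, fun i => ?_⟩
      · have : (((∑ i, ((s i : ℤ) + c i).toNat : ℕ)) : ℤ) = ((N + 1 : ℕ) : ℤ) := by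
          push_cast
          rw [Finset.sum_congr rfl fun i _ => h3 i, Finset.sum_add_distrib, hc]
          have : ((∑ i, s i : ℕ) : ℤ) = ((N : ℕ) : ℤ) := by rw [h1]
          push_cast at this
          rw [this]
        exact_mod_cast this
      · have := h3 i
        show c i ≤ ((((s i : ℤ) + c i).toNat : ℕ) : ℤ)
        rw [this]
        omega
    · intro t ht
      rw [Finset.mem_filter] at ht
      funext i
      have := ht.2 i
      show (((((t i : ℤ) - c i).toNat : ℕ) : ℤ) + c i).toNat = t i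
      omega
    · intro s hs
      rw [Finset.mem_filter] at hs
      funext i
      have := hs.2 i
      show (((((s i : ℤ) + c i).toNat : ℕ) : ℤ) - c i).toNat = s i
      omega
    · intro t ht
      rw [Finset.mem_filter, Finset.mem_piAntidiag] at ht
      obtain ⟨⟨h1, -⟩, h2⟩ := ht
      have h3 : ∀ i, ((((t i : ℤ) - c i).toNat : ℕ) : ℤ) = t i - c i := fun i => by
        have := h2 i
        omega
      refine hFG _ t ?_ fun i => ?_
      · have : (((∑ i, ((t i : ℤ) - c i).toNat : ℕ)) : ℤ) = ((N : ℕ) : ℤ) := by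
          push_cast
          rw [Finset.sum_congr rfl fun i _ => h3 i, Finset.sum_sub_distrib, hc]
          have : ((∑ i, t i : ℕ) : ℤ) = ((N + 1 : ℕ) : ℤ) := by rw [h1]
          push_cast at this
          rw [this]
          ring
        exact_mod_cast this
      · rw [h3 i]
        ring
  · intro s _ hne i
    by_contra hi
    exact hne (hG s ⟨i, by omega⟩)
  · intro t _ hne i
    by_contra hi
    exact hne (hF t ⟨i, by omega⟩)

end Ops

theorem main (h : S_KR) : S_BtoG := by
  intro n r f b hb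
  obtain ⟨L, c, q, a, Q, hc, hE⟩ := hb
  obtain ⟨u, p, hu, hp⟩ := h (S := Fin r → ℕ)
    (fun s => C (b.eval ((∑ i, s i : ℕ) : ℂ)) * ∏ i, f i ^ s i)
    (fun l s => C (eval (fun i => (s i : ℂ)) (q l) * ∏ i, ((s i).choose (-(c l i)).toNat : ℂ)) *
      ((Q l : Module.End ℂ (MvPolynomial (Fin n) ℂ)) (∏ i, f i ^ ((s i : ℤ) + c l i).toNat)))
    a (fun s => by
      rw [MvPolynomial.coe_mul, MvPolynomial.coe_C, hE s]
      refine Finset.sum_congr rfl fun l _ => ?_
      rw [MvPolynomial.coe_mul, MvPolynomial.coe_C]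
      ring)
  choose T hT hT' using fun l => lift (Q l : Module.End ℂ (MvPolynomial (Fin n) ℂ)) (Q l).2 r
  choose U hU hU' using fun l => shift (n := n) (c l) Finset.univ
  choose V hV hV' using fun l => euler (n := n) (q l)
  set W : Module.End ℂ (MvPolynomial (Fin (n + r)) ℂ) :=
    ∑ l, V l * (U l * (LinearMap.mulLeft ℂ (E r (p l)) * T l)) with hWdef
  have hW : W ∈ weylS (Fin (n + r)) :=
    Subalgebra.sum_mem _ fun l _ => Subalgebra.mul_mem _ (hV l)
      (Subalgebra.mul_mem _ (hU l) (Subalgebra.mul_mem _ (mulLeft_mem _) (hT l)))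
  have hstep : ∀ (l : Fin L) (t : Fin r → ℕ) (k : MvPolynomial (Fin n) ℂ),
      (V l * (U l * (LinearMap.mulLeft ℂ (E r (p l)) * T l))) (Y n t * E r k) =
        ((∏ i, kap (c l i) (t i)) *
          eval (fun i => ((((t i : ℤ) - c l i).toNat : ℕ) : ℂ)) (q l)) •
          (Y n (fun i => ((t i : ℤ) - c l i).toNat) * E r (p l * (Q l :
            Module.End ℂ (MvPolynomial (Fin n) ℂ)) k)) := by
    intro l t k
    rw [Module.End.mul_apply, Module.End.mul_apply, Module.End.mul_apply, hT',
      LinearMap.mulLeft_apply, mul_left_comm, ← E_mul, hU', map_smul, hV', smul_smul]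
    simp only [Finset.mem_univ, if_true]
  refine ⟨E r u, Finsupp.single 0 ⟨W, hW⟩, ?_, fun N => ?_⟩
  · unfold E
    rw [constantCoeff_rename, hu]
  rw [Finsupp.sum_single_index]
  · rw [pow_zero, one_smul]
    show _ = W (gpol f ^ (N + 1))
    rw [gpow, gpow, map_sum, hWdef]
    simp only [map_smul, LinearMap.sum_apply, hstep]
    simp only [Finset.smul_sum, smul_smul]
    rw [Finset.sum_comm]
    have key : ∀ l : Fin L, ∑ t ∈ Finset.piAntidiag Finset.univ (N + 1),
        ((Nat.multinomial Finset.univ t : ℂ) * ((∏ i, kap (c l i) (t i)) *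
          eval (fun i => ((((t i : ℤ) - c l i).toNat : ℕ) : ℂ)) (q l))) •
          (Y n (fun i => ((t i : ℤ) - c l i).toNat) * E r (p l * (Q l :
            Module.End ℂ (MvPolynomial (Fin n) ℂ)) (∏ i, f i ^ t i))) =
        ∑ s ∈ Finset.piAntidiag Finset.univ N,
          (((N : ℂ) + 1) * (Nat.multinomial Finset.univ s : ℂ)) •
            (Y n s * E r (p l * (C (eval (fun i => (s i : ℂ)) (q l) *
              ∏ i, ((s i).choose (-(c l i)).toNat : ℂ)) *
              ((Q l : Module.End ℂ (MvPolynomial (Fin n) ℂ))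
                (∏ i, f i ^ ((s i : ℤ) + c l i).toNat))))) := by
      intro l
      refine reindex (c l) (hc l) N _ _ ?_ ?_ ?_
      · rintro t ⟨i, hi⟩
        rw [Finset.prod_eq_zero (Finset.mem_univ i) (kap_zero _ _ hi)]
        simp
      · rintro s ⟨i, hi⟩
        have : (∏ i, ((s i).choose (-(c l i)).toNat : ℂ)) = 0 := by
          refine Finset.prod_eq_zero (Finset.mem_univ i) ?_
          rw [Nat.choose_eq_zero_of_lt (by omega), Nat.cast_zero]
        rw [this]
        simp [E]
      · intro s t hs hst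
        have h1 : (fun i => ((t i : ℤ) - c l i).toNat) = s := by
          funext i
          have := hst i
          omega
        have h2 : (fun i => ((((t i : ℤ) - c l i).toNat : ℕ) : ℂ)) = fun i => (s i : ℂ) := by
          funext i
          rw [← congrFun h1 i]
        have h3 : ∏ i, f i ^ ((s i : ℤ) + c l i).toNat = ∏ i, f i ^ t i := by
          refine Finset.prod_congr rfl fun i _ => ?_
          have := hst i
          congr 1
          omega
        rw [h1, h2, h3, ← mul_assoc, coef (c l) (hc l) s t N hs hst]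
        have h4 : E r (p l * (C (eval (fun i => (s i : ℂ)) (q l) *
              ∏ i, ((s i).choose (-(c l i)).toNat : ℂ)) *
              ((Q l : Module.End ℂ (MvPolynomial (Fin n) ℂ)) (∏ i, f i ^ t i)))) =
            (eval (fun i => (s i : ℂ)) (q l) * ∏ i, ((s i).choose (-(c l i)).toNat : ℂ)) •
              E r (p l * (Q l : Module.End ℂ (MvPolynomial (Fin n) ℂ)) (∏ i, f i ^ t i)) := by
          rw [mul_left_comm, E_mul, MvPolynomial.smul_eq_C_mul]
          congr 1
          simp [E]
        rw [h4, mul_smul_comm, smul_smul]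
        congr 1
        ring
    rw [Finset.sum_congr rfl fun l _ => key l, Finset.sum_comm, Finset.mul_sum]
    refine Finset.sum_congr rfl fun s hs => ?_
    rw [Finset.mem_piAntidiag] at hs
    rw [← Finset.smul_sum, ← Finset.mul_sum]
    have h5 : ∑ l, E r (p l * (C (eval (fun i => (s i : ℂ)) (q l) *
              ∏ i, ((s i).choose (-(c l i)).toNat : ℂ)) *
              ((Q l : Module.End ℂ (MvPolynomial (Fin n) ℂ))
                (∏ i, f i ^ ((s i : ℤ) + c l i).toNat)))) =
        E r (u * (C (b.eval (N : ℂ)) * ∏ i, f i ^ s i)) := by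
      have := hp s
      rw [hs.1] at this
      rw [this]
      unfold E
      rw [map_sum]
    rw [h5, E_mul, E_mul, Polynomial.eval_mul, Polynomial.eval_add, Polynomial.eval_X,
      Polynomial.eval_one, MvPolynomial.smul_eq_C_mul, MvPolynomial.smul_eq_C_mul]
    have h6 : E r (C (b.eval (N : ℂ)) : MvPolynomial (Fin n) ℂ) = C (b.eval (N : ℂ)) := by
      simp [E]
    rw [h6]
    simp only [C_mul, C_add]
    ring
  · simp

end Pool.Agent.W670.JIBtoG
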